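import Pool.Agent.H23.RDD.Targets

set_option autoImplicit false

/-!
# MP_c65535_nt, bounded degree, row DS: the descent at finitely many primes
-/

namespace Pool.Agent.H12.RDD

open Pool.Agent.H23.RDD Pool.Agent.H24.RD NumberField Height Finset Polynomial

theorem ds_aux (hMON : T_MON) (hDP : T_DPD) (F Ω : Type) [Field F] [NumberField F] [Field Ω]
    [CharZero Ω] [Algebra F Ω] [IsAlgClosed Ω] [Algebra.IsAlgebraic F Ω] (r : ℕ) (γ : Fin r → F)
    (hγ : MInd F γ) (d : ℕ) (hd : 0 < d) (S : Finset ℕ) : (∀ p ∈ S, p.Prime) →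
    ∃ (N0 : ℕ) (δ : ℝ), 0 < N0 ∧ 0 < δ ∧
      ∀ N K : ℕ, 0 < N → K ∣ N → ∀ α : Ω, RepD F Ω γ N K d α → absLogHeight₁ α < δ →
      ∃ N' K' : ℕ, 0 < N' ∧ K' ∣ N' ∧ K' ∣ K ∧ (∀ p ∈ S, ¬ p ∣ N') ∧
        RepD F Ω γ (N0 * N') (N0 * K') d α := by
  classical
  induction S using Finset.induction_on with
  | empty =>
    intro _
    refine ⟨1, 1, one_pos, one_pos, ?_⟩
    intro N K hN hK α hα _
    refine ⟨N, K, hN, hK, dvd_rfl, by simp, ?_⟩
    simpa using hα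
  | insert q S hqS ih =>
    intro hS
    obtain ⟨N0, δ, hN0, hδ, hrep⟩ := ih fun p hp => hS p (Finset.mem_insert_of_mem hp)
    have hq : q.Prime := hS q (Finset.mem_insert_self q S)
    obtain ⟨k, Q, δ', hδ', hqQ, hDq⟩ := hDP F Ω q hq r γ hγ d hd
    have hQ : 0 < Q := by
      rcases Nat.eq_zero_or_pos Q with h | h
      · rw [h] at hqQ
        exact absurd (dvd_zero q) hqQ
      · exact h
    obtain ⟨a, N00, hqN00, hN0e⟩ := Nat.exists_eq_pow_mul_and_not_dvd hN0.ne' q hq.ne_one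
    have hN00 : 0 < N00 := by
      rcases Nat.eq_zero_or_pos N00 with h | h
      · rw [h] at hqN00
        exact absurd (dvd_zero q) hqN00
      · exact h
    refine ⟨q ^ k * N0 * Q, min δ δ', Nat.mul_pos (Nat.mul_pos (pow_pos hq.pos k) hN0) hQ,
      lt_min hδ hδ', ?_⟩
    intro N K hN hK α hα hh
    obtain ⟨N1, K1, hN1, hKN1, hK1, hS1, hR1⟩ :=
      hrep N K hN hK α hα (hh.trans_le (min_le_left _ _))
    have hK1pos : 0 < K1 := Nat.pos_of_dvd_of_pos hKN1 hN1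
    obtain ⟨n, N2, hqN2, hN1e⟩ := Nat.exists_eq_pow_mul_and_not_dvd hN1.ne' q hq.ne_one
    obtain ⟨m, K2, hqK2, hK1e⟩ := Nat.exists_eq_pow_mul_and_not_dvd hK1pos.ne' q hq.ne_one
    have hN2 : 0 < N2 := by
      rcases Nat.eq_zero_or_pos N2 with h | h
      · rw [h] at hqN2
        exact absurd (dvd_zero q) hqN2
      · exact h
    have hK2 : 0 < K2 := by
      rcases Nat.eq_zero_or_pos K2 with h | h
      · rw [h] at hqK2
        exact absurd (dvd_zero q) hqK2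
      · exact h
    have hmn : m ≤ n := by
      have h1 : q ^ m ∣ q ^ n * N2 := by
        rw [← hN1e]
        exact (Dvd.intro K2 hK1e.symm).trans hKN1
      have h2 : (q ^ m).Coprime N2 :=
        Nat.Coprime.pow_left m ((Nat.Prime.coprime_iff_not_dvd hq).mpr hqN2)
      exact (Nat.pow_dvd_pow_iff_le_right hq.one_lt).mp (h2.dvd_of_dvd_mul_right h1)
    have hK2N2 : K2 ∣ N2 := by
      have h1 : K2 ∣ q ^ n * N2 := by
        rw [← hN1e]
        exact (Dvd.intro_left (q ^ m) hK1e.symm).trans hKN1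
      have h2 : K2.Coprime (q ^ n) :=
        Nat.Coprime.pow_right n ((Nat.Prime.coprime_iff_not_dvd hq).mpr hqK2).symm
      exact h2.dvd_of_dvd_mul_left h1
    have hγ0 := hγ.1
    -- first enlargement
    have hdv : N00 * K2 ∣ N00 * Q * N2 := by
      obtain ⟨c, hc⟩ := hK2N2
      exact ⟨Q * c, by rw [hc]; ring⟩
    have hR2 : RepD F Ω γ (q ^ (a + n) * (N00 * Q * N2)) (q ^ (a + m) * (N00 * K2)) d α := by
      have e2 : q ^ (a + m) * (N00 * K2) = N0 * K1 := by rw [hK1e, hN0e, pow_add]; ring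
      refine (hMON F Ω r γ hγ0 (N0 * N1) (N0 * K1) _ _ d (Nat.mul_pos hN0 hN1)
        (Nat.mul_pos hN0 hK1pos) ?_ ?_ ?_ ?_ α).2 hR1
      · refine ⟨Q, ?_⟩
        rw [hN1e, hN0e, pow_add]
        ring
      · rw [e2]
      · exact Nat.mul_dvd_mul (pow_dvd_pow q (by omega)) hdv
      · exact Nat.mul_pos (pow_pos hq.pos _) (Nat.mul_pos (Nat.mul_pos hN00 hQ) hN2)
    have hq2 : ¬ q ∣ N00 * Q * N2 := by
      rw [hq.dvd_mul, hq.dvd_mul]
      tauto
    have hR3 := hDq (a + n) (a + m) (N00 * Q * N2) (N00 * K2) (by omega) hq2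
      ⟨N00 * N2, by ring⟩ hdv α hR2 (hh.trans_le (min_le_right _ _))
    have hNd : N00 ∣ N0 := ⟨q ^ a, by rw [hN0e]; ring⟩
    refine ⟨N2, K2, hN2, hK2N2, ?_, ?_, ?_⟩
    · exact (Dvd.intro_left (q ^ m) hK1e.symm).trans hK1
    · intro p hp
      rcases Finset.mem_insert.mp hp with h | h
      · rw [h]
        exact hqN2
      · intro h2
        exact hS1 p h (by rw [hN1e]; exact Dvd.dvd.mul_left h2 _)
    · refine (hMON F Ω r γ hγ0 _ _ _ _ d ?_ ?_ ?_ ?_ ?_ ?_ α).2 hR3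
      · exact Nat.mul_pos (pow_pos hq.pos _) (Nat.mul_pos (Nat.mul_pos hN00 hQ) hN2)
      · exact Nat.mul_pos (pow_pos hq.pos _) (Nat.mul_pos hN00 hK2)
      · obtain ⟨c, hc⟩ := hNd
        exact ⟨c, by rw [hc]; ring⟩
      · obtain ⟨c, hc⟩ := hNd
        exact ⟨c * Q, by rw [hc]; ring⟩
      · exact Nat.mul_dvd_mul_left _ hK2N2
      · exact Nat.mul_pos (Nat.mul_pos (Nat.mul_pos (pow_pos hq.pos k) hN0) hQ) hN2

theorem pf_DSD : T_MON → T_DPD → T_DSD := by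
  intro hMON hDP F Ω _ _ _ _ _ _ _ r γ hγ S hS d hd
  obtain ⟨N0, δ, hN0, hδ, hrep⟩ := ds_aux hMON hDP F Ω r γ hγ d hd S hS
  refine ⟨N0, δ, hN0, hδ, ?_⟩
  intro N K hN hK hKS α hα hh
  obtain ⟨N', K', hN', hKN', hKK, hSN', hR⟩ := hrep N K hN hK α hα hh
  have hK1 : K' = 1 := by
    by_contra h
    obtain ⟨p, hp, h1⟩ := Nat.exists_prime_and_dvd h
    exact hSN' p (hKS p hp (h1.trans hKK)) (h1.trans hKN')
  refine ⟨N', hSN', ?_⟩
  rw [hK1, mul_one] at hR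
  exact hR

end Pool.Agent.H12.RDD
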